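import Pool.Agent.Helper23.MV.StC

set_option autoImplicit false

namespace Pool.Agent.Helper82.MV

open Finset
open Pool.Agent.Helper23.MV

private lemma cor_range (Y N p : ℕ) (h1 : Y < N) (h2 : N ≤ 2 * Y) (h3 : Nat.sqrt Y * 2 < p)
    (h4 : p ≤ 3 * Nat.sqrt Y) : √(N : ℝ) < p ∧ (p : ℝ) < 4 * √(N : ℝ) := by
  have hs1 : Nat.sqrt Y * Nat.sqrt Y ≤ Y := Nat.sqrt_le Y
  have hs2 : Y < (Nat.sqrt Y + 1) * (Nat.sqrt Y + 1) := Nat.lt_succ_sqrt Y
  set s := Nat.sqrt Y with hs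
  have hN : N < p ^ 2 := by nlinarith
  have hN2 : p ^ 2 < 16 * N := by nlinarith
  have hN' : (N : ℝ) < (p : ℝ) ^ 2 := by exact_mod_cast hN
  have hN2' : (p : ℝ) ^ 2 < 16 * (N : ℝ) := by exact_mod_cast hN2
  have hp0 : (0 : ℝ) ≤ p := Nat.cast_nonneg p
  have hn0 : (0 : ℝ) ≤ N := Nat.cast_nonneg N
  refine ⟨?_, ?_⟩
  · have hp1 : (0 : ℝ) < p := by
      have : 0 < p := by omega
      exact_mod_cast this
    rw [Real.sqrt_lt' hp1]; exact hN'
  · have h16 : √(N : ℝ) ^ 2 = N := Real.sq_sqrt hn0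
    have hq : 0 ≤ √(N : ℝ) := Real.sqrt_nonneg _
    nlinarith [sq_nonneg ((p : ℝ) - 4 * √(N : ℝ))]

open Classical in
theorem hCor : StFinC → StCor := by
  rintro ⟨d, X0, hd, hX0, hF⟩
  set d' : ℝ := min d (1 / 2) with hd'
  have hd'0 : 0 < d' := lt_min hd (by norm_num)
  have hd'1 : d' ≤ 1 / 2 := min_le_right _ _
  have hd'2 : d' ≤ d := min_le_left _ _
  set M0 : ℕ := max ⌈X0⌉₊ 12 with hM0
  have hM12 : 12 ≤ M0 := le_max_right _ _
  have hMX : X0 ≤ (M0 : ℝ) := (Nat.le_ceil X0).trans (by exact_mod_cast le_max_left _ _)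
  set C : ℝ := 2 * M0 + 4 with hC
  have hC4 : 4 ≤ C := by
    have : (0 : ℝ) ≤ M0 := Nat.cast_nonneg _
    linarith
  refine ⟨C, d', hd'0, ?_⟩
  intro X
  induction X using Nat.strong_induction_on with
  | _ X ih =>
    intro hX1
    have hX1' : (1 : ℝ) ≤ X := by exact_mod_cast hX1
    by_cases hXM : X ≤ 2 * M0
    · have h1 : (((Icc 1 X).filter (fun N => Even N ∧ ¬ ∃ p : ℕ, p.Prime ∧ (N - p).Prime ∧ p < N ∧
          √(N : ℝ) < p ∧ (p : ℝ) < 4 * √(N : ℝ))).card : ℝ) ≤ X := by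
        have := Finset.card_filter_le (Icc 1 X) (fun N => Even N ∧ ¬ ∃ p : ℕ, p.Prime ∧
          (N - p).Prime ∧ p < N ∧ √(N : ℝ) < p ∧ (p : ℝ) < 4 * √(N : ℝ))
        rw [Nat.card_Icc] at this
        have h2 : X + 1 - 1 = X := by omega
        rw [h2] at this
        exact_mod_cast this
      have h3 : (X : ℝ) ≤ 2 * M0 := by exact_mod_cast hXM
      have h4 : (1 : ℝ) ≤ (X : ℝ) ^ (1 - d') := Real.one_le_rpow hX1' (by linarith)
      have h5 : C * 1 ≤ C * (X : ℝ) ^ (1 - d') := mul_le_mul_of_nonneg_left h4 (by linarith)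
      linarith
    · push Not at hXM
      set Y : ℕ := (X + 1) / 2 with hY
      have hYX : Y < X := by omega
      have hY2 : X ≤ 2 * Y := by omega
      have hYM : M0 ≤ Y := by omega
      have hY1 : 1 ≤ Y := by omega
      have hY1' : (1 : ℝ) ≤ Y := by exact_mod_cast hY1
      have hYr : (Y : ℝ) ≤ 0.6 * X := by
        have h5 : 2 * Y ≤ X + 1 := by omega
        have h6 : (2 : ℝ) * Y ≤ X + 1 := by exact_mod_cast h5
        have h7 : (24 : ℝ) ≤ X := by
          have : 24 ≤ X := by omega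
          exact_mod_cast this
        linarith
      have hA := ih Y hYX hY1
      have hB := hF Y (hMX.trans (by exact_mod_cast hYM))
      have hsub : ((Icc 1 X).filter (fun N => Even N ∧ ¬ ∃ p : ℕ, p.Prime ∧ (N - p).Prime ∧
          p < N ∧ √(N : ℝ) < p ∧ (p : ℝ) < 4 * √(N : ℝ))) ⊆
          ((Icc 1 Y).filter (fun N => Even N ∧ ¬ ∃ p : ℕ, p.Prime ∧ (N - p).Prime ∧
          p < N ∧ √(N : ℝ) < p ∧ (p : ℝ) < 4 * √(N : ℝ))) ∪
          ((Ioc Y (2 * Y)).filter (fun N => Even N ∧ ¬ ∃ p : ℕ, p.Prime ∧ (N - p).Prime ∧ p < N ∧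
            Nat.sqrt Y * 2 < p ∧ p ≤ 3 * Nat.sqrt Y)) := by
        intro N hN
        simp only [mem_filter, mem_Icc] at hN
        simp only [mem_union, mem_filter, mem_Icc, mem_Ioc]
        by_cases hNY : N ≤ Y
        · exact Or.inl ⟨⟨hN.1.1, hNY⟩, hN.2⟩
        · refine Or.inr ⟨⟨by omega, by omega⟩, hN.2.1, ?_⟩
          rintro ⟨p, hp1, hp2, hp3, hp4, hp5⟩
          have := cor_range Y N p (by omega) (by omega) hp4 hp5
          exact hN.2.2 ⟨p, hp1, hp2, hp3, this.1, this.2⟩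
      have hcard := (Finset.card_le_card hsub).trans (Finset.card_union_le _ _)
      have hcard' : (((Icc 1 X).filter (fun N => Even N ∧ ¬ ∃ p : ℕ, p.Prime ∧ (N - p).Prime ∧
          p < N ∧ √(N : ℝ) < p ∧ (p : ℝ) < 4 * √(N : ℝ))).card : ℝ) ≤
          (((Icc 1 Y).filter (fun N => Even N ∧ ¬ ∃ p : ℕ, p.Prime ∧ (N - p).Prime ∧
          p < N ∧ √(N : ℝ) < p ∧ (p : ℝ) < 4 * √(N : ℝ))).card : ℝ) +
          (((Ioc Y (2 * Y)).filter (fun N => Even N ∧ ¬ ∃ p : ℕ, p.Prime ∧ (N - p).Prime ∧ p < N ∧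
            Nat.sqrt Y * 2 < p ∧ p ≤ 3 * Nat.sqrt Y)).card : ℝ) := by exact_mod_cast hcard
      have hBd : (Y : ℝ) ^ (1 - d) ≤ (Y : ℝ) ^ (1 - d') :=
        Real.rpow_le_rpow_of_exponent_le hY1' (by linarith)
      have hYp : (Y : ℝ) ^ (1 - d') ≤ 0.78 * (X : ℝ) ^ (1 - d') := by
        calc (Y : ℝ) ^ (1 - d') ≤ (0.6 * X : ℝ) ^ (1 - d') :=
              Real.rpow_le_rpow (by positivity) hYr (by linarith)
          _ = (0.6 : ℝ) ^ (1 - d') * (X : ℝ) ^ (1 - d') :=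
              Real.mul_rpow (by norm_num) (by positivity)
          _ ≤ 0.78 * (X : ℝ) ^ (1 - d') := by
              apply mul_le_mul_of_nonneg_right _ (by positivity)
              calc (0.6 : ℝ) ^ (1 - d') ≤ (0.6 : ℝ) ^ (1 / 2 : ℝ) :=
                    Real.rpow_le_rpow_of_exponent_ge (by norm_num) (by norm_num) (by linarith)
                _ = √0.6 := (Real.sqrt_eq_rpow _).symm
                _ ≤ 0.78 := by
                    rw [Real.sqrt_le_left (by norm_num)]; norm_num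
      have hXp : 0 ≤ (X : ℝ) ^ (1 - d') := by positivity
      have hXp1 : (C + 1) * (Y : ℝ) ^ (1 - d') ≤ (C + 1) * (0.78 * (X : ℝ) ^ (1 - d')) :=
        mul_le_mul_of_nonneg_left hYp (by linarith)
      have hfin : (C + 1) * (0.78 * (X : ℝ) ^ (1 - d')) ≤ C * (X : ℝ) ^ (1 - d') := by
        nlinarith
      calc _ ≤ _ := hcard'
        _ ≤ C * (Y : ℝ) ^ (1 - d') + (Y : ℝ) ^ (1 - d') := by
            refine add_le_add hA ?_
            refine le_trans ?_ hBd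
            convert hB using 2
        _ = (C + 1) * (Y : ℝ) ^ (1 - d') := by ring
        _ ≤ _ := hXp1.trans hfin
end Pool.Agent.Helper82.MV
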